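import Pool.Agent.helper96.S5.SpecR

/-!
# Project s5 (MP_0b485e_lc), row GDD
-/

set_option autoImplicit false

namespace S5

open PF

noncomputable section

open Classical

theorem GDD_Ps (X : Cx) {i k z s s' : ℕ} (hs : s ≤ s') (h : X.Ps i k z s) : X.Ps i k z s' := by
  rcases h with ⟨h0, h1⟩ | ⟨h0, h1⟩ | ⟨h0, h1⟩ | ⟨h0, h1⟩
  · refine Or.inl ⟨h0, ?_⟩
    rcases h1 with h1 | ⟨t, ht, h1⟩
    · exact Or.inl (Wst_mono hs h1)
    · exact Or.inr ⟨t, lt_of_lt_of_le ht hs, h1⟩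
  · refine Or.inr (Or.inl ⟨h0, ?_⟩)
    rcases h1 with h1 | h1
    · exact Or.inl (Wst_mono hs h1)
    · exact Or.inr (Wst_mono hs h1)
  · exact Or.inr (Or.inr (Or.inl ⟨h0, Wst_mono hs h1⟩))
  · exact Or.inr (Or.inr (Or.inr ⟨h0, h1⟩))

theorem GDD_mono (X : Cx) (i k s : ℕ) : X.cnD i k s ≤ X.cnD i k (s + 1) := by
  unfold Cx.cnD
  apply lst_le
  have h : ∃ z, (s + 1 ≤ z ∨ ¬ X.Ps i k z (s + 1)) := ⟨s + 1, Or.inl le_rfl⟩
  rcases lst_spec h with h1 | h1
  · exact Or.inl ((Nat.le_succ s).trans h1)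
  · exact Or.inr fun h2 => h1 (GDD_Ps X (Nat.le_succ s) h2)

theorem GDD_dcp (X : Cx) (i k t s : ℕ) (h : X.dcD i k t s ≠ 0) : X.dcD i k t (s + 1) = X.dcD i k t s := by
  unfold Cx.dcD at h ⊢
  by_cases hi : i.unpair.1 = 1
  · rw [if_pos hi] at h ⊢
    rw [if_pos hi]
    by_cases h1 : ∃ u ≤ s, Wst i.unpair.2.unpair.1 u (Nat.pair k (X.f t)) ∧
        ∀ u' < u, ¬ Wst i.unpair.2.unpair.2 u' (Nat.pair k (X.f t))
    · have h2 : ∃ u ≤ s + 1, Wst i.unpair.2.unpair.1 u (Nat.pair k (X.f t)) ∧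
          ∀ u' < u, ¬ Wst i.unpair.2.unpair.2 u' (Nat.pair k (X.f t)) := by
        obtain ⟨u, hu, h3⟩ := h1
        exact ⟨u, hu.trans (Nat.le_succ s), h3⟩
      rw [if_pos h1, if_pos h2]
    · rw [if_neg h1] at h ⊢
      have h2 : ∃ u ≤ s, Wst i.unpair.2.unpair.2 u (Nat.pair k (X.f t)) := by
        by_contra h2
        rw [if_neg h2] at h
        exact h rfl
      have h3 : ¬ ∃ u ≤ s + 1, Wst i.unpair.2.unpair.1 u (Nat.pair k (X.f t)) ∧
          ∀ u' < u, ¬ Wst i.unpair.2.unpair.2 u' (Nat.pair k (X.f t)) := by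
        rintro ⟨u, hu, h4, h5⟩
        rcases Nat.lt_or_ge s u with h6 | h6
        · obtain ⟨u0, hu0, h7⟩ := h2
          exact h5 u0 (lt_of_le_of_lt hu0 h6) h7
        · exact h1 ⟨u, h6, h4, h5⟩
      have h4 : ∃ u ≤ s + 1, Wst i.unpair.2.unpair.2 u (Nat.pair k (X.f t)) := by
        obtain ⟨u, hu, h5⟩ := h2
        exact ⟨u, hu.trans (Nat.le_succ s), h5⟩
      rw [if_neg h3, if_pos h4, if_pos h2]
  · rw [if_neg hi, if_neg hi]

theorem GDD_dec (F : List ℕ) (k : ℕ) : ComputablePred fun x : ℕ × ℕ =>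
    ∀ i ∈ F, i.unpair.1 = 0 → Wst i.unpair.2 x.2 (Nat.pair k x.1) := by
  induction F with
  | nil =>
    refine (cp_const True).of_eq fun x => ?_
    simp
  | cons i F ih =>
    have h1 : ComputablePred fun x : ℕ × ℕ => (i.unpair.1 = 0 → Wst i.unpair.2 x.2 (Nat.pair k x.1)) := by
      by_cases hi : i.unpair.1 = 0
      · have h2 : ComputablePred fun x : ℕ × ℕ => Wst i.unpair.2 x.2 (Nat.pair k x.1) := by
          refine cp_comp (f := fun x : ℕ × ℕ => (i.unpair.2, x.2, Nat.pair k x.1)) ?_ Wst_computable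
          exact (Computable.const _).pair (Computable.snd.pair
            (Primrec₂.natPair.comp (Primrec.const k) Primrec.fst).to_comp)
        refine h2.of_eq fun x => ?_
        simp [hi]
      · refine (cp_const True).of_eq fun x => ?_
        simp [hi]
    refine (cp_and h1 ih).of_eq fun x => ?_
    simp [List.forall_mem_cons]

theorem GDD_E (X : Cx) (hX : X.Ok) : REPred fun z => z ∈ X.E := by
  have h1 : REPred fun z : ℕ => ∃ t : ℕ, X.f t = z := by
    refine re_ex (p := fun (z t : ℕ) => X.f t = z) ?_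
    exact (cp_eq (hX.fc.comp Computable.snd) Computable.fst).to_re
  exact h1

theorem GDD_h1 (hCNC : CNC_stmt) (X : Cx) (hX : X.Ok) (k : ℕ) (F : List ℕ) (hF : ∀ i ∈ F, X.B.C i k)
    (t0 : ℕ) : ∃ t, t0 ≤ t ∧ ∀ i ∈ F, X.B.pr i k t := by
  by_contra hcon
  push Not at hcon
  apply hX.ne
  rw [ComputablePred.computable_iff_re_compl_re]
  refine ⟨GDD_E X hX, ?_⟩
  -- large stages
  have hlarge : ∀ (z : ℕ) (G : List ℕ), (∀ i ∈ G, i.unpair.1 = 0 → We i.unpair.2 (Nat.pair k z)) →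
      ∃ s0, ∀ s, s0 ≤ s → ∀ i ∈ G, i.unpair.1 = 0 → Wst i.unpair.2 s (Nat.pair k z) := by
    intro z G
    induction G with
    | nil => intro _; exact ⟨0, fun s _ i hi => absurd hi (List.not_mem_nil)⟩
    | cons i G ih =>
      intro h
      obtain ⟨s0, hs0⟩ := ih fun i' hi' => h i' (List.mem_cons_of_mem _ hi')
      by_cases hi : i.unpair.1 = 0
      · obtain ⟨s1, hs1⟩ := h i List.mem_cons_self hi
        refine ⟨max s0 s1, fun s hs i' hi' h0 => ?_⟩
        rcases List.mem_cons.1 hi' with rfl | hi'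
        · exact Wst_mono ((le_max_right _ _).trans hs) hs1
        · exact hs0 s ((le_max_left _ _).trans hs) i' hi' h0
      · refine ⟨s0, fun s hs i' hi' h0 => ?_⟩
        rcases List.mem_cons.1 hi' with rfl | hi'
        · exact absurd h0 hi
        · exact hs0 s hs i' hi' h0
  have key : ∀ z, z ∉ X.E ↔ ∃ s, t0 ≤ s ∧ (∀ i ∈ F, i.unpair.1 = 0 → Wst i.unpair.2 s (Nat.pair k z)) ∧
      ∀ t < s + 1, X.f t ≠ z := by
    intro z
    constructor
    · intro hz
      have hW : ∀ i ∈ F, i.unpair.1 = 0 → We i.unpair.2 (Nat.pair k z) := by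
        intro i hi h0
        have h1 := hF i hi
        have h2 : i = pT i.unpair.2 := by
          unfold pT
          rw [← h0, Nat.pair_unpair]
        rw [h2] at h1
        rcases ((hCNC X k).1 i.unpair.2).1 h1 z with h3 | h3
        · exact h3
        · exact absurd h3 hz
      obtain ⟨s0, hs0⟩ := hlarge z F hW
      refine ⟨max t0 s0, le_max_left _ _, hs0 _ (le_max_right _ _), ?_⟩
      intro t _ ht
      exact hz ⟨t, ht⟩
    · rintro ⟨s, hs, h1, h2⟩ ⟨t, ht⟩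
      have hts : s < t := by
        by_contra hn
        exact h2 t (by omega) ht
      obtain ⟨i, hi, h3⟩ := hcon t (hs.trans hts.le)
      apply h3
      intro h0
      change Wst i.unpair.2 t (Nat.pair k (X.f t))
      rw [ht]
      exact Wst_mono hts.le (h1 i hi h0)
  have hre : REPred fun z : ℕ => ∃ s, t0 ≤ s ∧ (∀ i ∈ F, i.unpair.1 = 0 → Wst i.unpair.2 s (Nat.pair k z)) ∧
      ∀ t < s + 1, X.f t ≠ z := by
    refine re_ex (p := fun (z s : ℕ) => t0 ≤ s ∧ (∀ i ∈ F, i.unpair.1 = 0 → Wst i.unpair.2 s (Nat.pair k z)) ∧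
      ∀ t < s + 1, X.f t ≠ z) ?_
    refine ComputablePred.to_re ?_
    refine cp_and (cp_le (Computable.const t0) Computable.snd) (cp_and (GDD_dec F k) ?_)
    refine cp_ball (p := fun (x : ℕ × ℕ) (t : ℕ) => X.f t ≠ x.1) (g := fun x : ℕ × ℕ => x.2 + 1) ?_
      (Computable.succ.comp Computable.snd)
    exact cp_not (cp_eq (hX.fc.comp Computable.snd) (Computable.fst.comp Computable.fst))
  exact hre.of_eq fun z => (key z).symm

theorem GDD_h2 (hCNC : CNC_stmt) (X : Cx) (i k : ℕ) (hC : X.B.C i k) (t : ℕ) : ∃ s, X.B.dc i k t s ≠ 0 := by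
  change ∃ s, X.dcD i k t s ≠ 0
  unfold Cx.dcD
  by_cases hi : i.unpair.1 = 1
  · have h2 : i = pS i.unpair.2.unpair.1 i.unpair.2.unpair.2 := by
      unfold pS
      rw [Nat.pair_unpair, ← hi, Nat.pair_unpair]
    rw [h2] at hC
    have h3 := ((hCNC X k).2.1 _ _).1 hC t
    by_cases h4 : We i.unpair.2.unpair.2 (Nat.pair k (X.f t))
    · obtain ⟨u0, hu0⟩ := h4
      refine ⟨u0, ?_⟩
      rw [if_pos hi]
      split_ifs with h5 h6
      · exact two_ne_zero
      · exact one_ne_zero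
      · exact absurd ⟨u0, le_rfl, hu0⟩ h6
    · obtain ⟨u, hu⟩ := h3.resolve_right h4
      refine ⟨u, ?_⟩
      rw [if_pos hi, if_pos ⟨u, le_rfl, hu, fun u' _ hu' => h4 ⟨u', hu'⟩⟩]
      exact two_ne_zero
  · refine ⟨0, ?_⟩
    rw [if_neg hi]
    exact one_ne_zero

theorem GDD_dc2 (X : Cx) (i k t s : ℕ) : X.dcD i k t s ≤ 2 := by
  unfold Cx.dcD
  split_ifs
  · exact le_rfl
  · exact one_le_two
  · exact Nat.zero_le _
  · exact one_le_two

/-- row GDD -/
theorem GDD_row (hCNC : CNC_stmt) : GDD_stmt := by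
  intro X hX k
  exact ⟨hX.m0, fun i s => GDD_mono X i k s, fun i t s => GDD_dc2 X i k t s,
    fun i t s h => GDD_dcp X i k t s h, fun F hF t0 => GDD_h1 hCNC X hX k F hF t0,
    fun i hC t => GDD_h2 hCNC X i k hC t⟩

end

end S5
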